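import Pool.Agent.helper13.U4.SpecD

/-!
# Project U4, row DE2
-/

set_option autoImplicit false

namespace Pool.Agent.U4

theorem DE2_first {v : ℕ} {x : ℕ → ℕ → Bool} (hr0 : ∀ t ≤ v, x t 0 = true) (ρ σ a b : ℕ) (h0 : 0 < ρ)
    (ha : a ≤ σ) (hb : b ≤ σ) (hne : a ≠ b) (hσ : σ < v) (hxa : x a ρ = true) (hxb : x b ρ = true) :
    TwoW v x ρ σ := by
  refine ⟨ρ, a, 0, σ - a, ρ, b, 0, σ - b, ?_, ?_, ?_, ?_⟩
  · exact ⟨hxa, hr0 _ (by omega), by omega, by omega, by omega, Or.inl ⟨by omega, by omega⟩⟩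
  · exact ⟨hxb, hr0 _ (by omega), by omega, by omega, by omega, Or.inl ⟨by omega, by omega⟩⟩
  · omega
  · omega

theorem DE2_second {v : ℕ} {x : ℕ → ℕ → Bool} (hr0 : ∀ t ≤ v, x t 0 = true) (ρ σ a b : ℕ) (h0 : 0 < ρ)
    (ha : σ < a) (hb : σ < b) (ha' : a < v) (hb' : b < v) (hne : a ≠ b) (hxa : x a ρ = true)
    (hxb : x b ρ = true) : TwoW v x (ρ + 2) σ := by
  refine ⟨ρ, a, 0, σ + v - a, ρ, b, 0, σ + v - b, ?_, ?_, ?_, ?_⟩
  · exact ⟨hxa, hr0 _ (by omega), by omega, by omega, by omega, Or.inr ⟨by omega, by omega⟩⟩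
  · exact ⟨hxb, hr0 _ (by omega), by omega, by omega, by omega, Or.inr ⟨by omega, by omega⟩⟩
  · omega
  · omega

theorem DE2 : DE2_stmt := by
  intro k q h v x hp hFL hFH ρ σ h1 h2 hσ
  have hh4 : 4 ≤ h ∧ h % 4 = 0 := by
    rw [hp.hh]
    obtain ⟨j, hj⟩ : ∃ j, k = j + 2 := ⟨k - 2, by have := hp.hk; omega⟩
    have h3 : 2 ^ k = 4 * 2 ^ j := by rw [hj, pow_add]; ring
    have h4 : 0 < 2 ^ j := by positivity
    omega
  obtain ⟨hh, hh'⟩ := hh4
  obtain ⟨p, hpq⟩ : ∃ p, q = p + 7 := ⟨q - 7, by have := hp.hq; omega⟩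
  have hv := hp.hv
  have e0 : 2 * h * q = 2 * (p * h) + 14 * h := by rw [hpq]; ring
  have hr0 := hFL.r0
  have hρ : ρ = 2 * h + 4 ∨ ρ = 2 * h + 5 ∨ ρ = 2 * h + 6 := by omega
  rcases hρ with rfl | rfl | rfl
  · by_cases hc : σ + h + 2 < v
    · have e1 : (2 * p + 13) * h = 2 * (p * h) + 13 * h := by ring
      have h3 := hFH.b2 (2 * p + 13) (h - 1) (by omega) (by omega) (by omega) (by omega) (by omega)
      have h4 := hFH.b2 (2 * p + 13) (h - 3) (by omega) (by omega) (by omega) (by omega) (by omega)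
      exact DE2_second hr0 (2 * h + 2) σ _ _ (by omega) (by omega) (by omega) (by omega) (by omega)
        (by omega) h3 h4
    · have h3 := hFH.a4'' 0 (by omega) (by omega)
      have h4 := hFH.a4'' 2 (by omega) (by omega)
      exact DE2_first hr0 (2 * h + 4) σ _ _ (by omega) (by omega) (by omega) (by omega) hσ h3 h4
  · by_cases hc : σ + 2 < 3 * h
    · have h3 := hFH.b3 (h - 2) (by omega)
      have h4 := hFH.b3 (h - 1) (by omega)
      exact DE2_second hr0 (2 * h + 3) σ _ _ (by omega) (by omega) (by omega) (by omega) (by omega)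
        (by omega) h3 h4
    · have h3 := hFH.a5
      have h4 := hFH.a5'
      exact DE2_first hr0 (2 * h + 5) σ _ _ (by omega) (by omega) (by omega) (by omega) hσ h3 h4
  · by_cases hc : σ + 2 < v
    · have e1 : (2 * p + 14) * h = 2 * (p * h) + 14 * h := by ring
      have h3 := hFH.b4 (2 * p + 14) (h - 2) (by omega) (by omega) (by omega) (by omega)
      have h4 := hFH.b4 (2 * p + 14) (h - 3) (by omega) (by omega) (by omega) (by omega)
      exact DE2_second hr0 (2 * h + 4) σ _ _ (by omega) (by omega) (by omega) (by omega) (by omega)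
        (by omega) h3 h4
    · have h3 := hFH.b6 (4 * h + 2) (by omega) (by omega) (by omega)
      have h4 := hFH.b6 (4 * h + 4) (by omega) (by omega) (by omega)
      exact DE2_first hr0 (2 * h + 6) σ _ _ (by omega) (by omega) (by omega) (by omega) hσ h3 h4

end Pool.Agent.U4
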