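import Pool.Agent.helper13.U4.Spec

/-!
# Project U4, row GPW
-/

set_option autoImplicit false

namespace Pool.Agent.U4

theorem GPW_A (n i : ℕ) : (2 ^ n).choose i % 2 = 1 ↔ i = 0 ∨ i = 2 ^ n := by
  constructor
  · intro h
    by_contra hc
    rw [not_or] at hc
    have h1 : 2 ∣ (2 ^ n).choose i := Nat.Prime.dvd_choose_pow Nat.prime_two hc.1 hc.2
    omega
  · rintro (rfl | rfl)
    · rw [Nat.choose_zero_right]
    · rw [Nat.choose_self]

theorem GPW_B1 (n : ℕ) : ∀ i, i < 2 ^ n → (2 ^ n - 1).choose i % 2 = 1 := by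
  intro i
  induction i with
  | zero => intro _; rw [Nat.choose_zero_right]
  | succ i ih =>
    intro h
    have h1 := ih (by omega)
    have h2 : 2 ∣ (2 ^ n).choose (i + 1) :=
      Nat.Prime.dvd_choose_pow Nat.prime_two (by omega) (by omega)
    have h3 : (2 ^ n).choose (i + 1) = (2 ^ n - 1).choose i + (2 ^ n - 1).choose (i + 1) := by
      obtain ⟨m, hm⟩ : ∃ m, 2 ^ n = m + 1 := ⟨2 ^ n - 1, by omega⟩
      rw [hm, Nat.add_sub_cancel, Nat.choose_succ_succ]
    omega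

theorem GPW_B (n i : ℕ) : (2 ^ n - 1).choose i % 2 = 1 ↔ i < 2 ^ n := by
  refine ⟨fun h => ?_, GPW_B1 n i⟩
  by_contra hc
  have h1 : (2 ^ n - 1).choose i = 0 := Nat.choose_eq_zero_of_lt (by
    have : 0 < 2 ^ n := by positivity
    omega)
  omega

theorem GPW_g (d r : ℕ) : g d r = true ↔
    r % 4 ≠ 3 ∧ (r % 4 = 0 ∨ d % 2 = 1) ∧ (d / 2).choose (r / 4) % 2 = 1 := by
  unfold g
  simp only [Bool.and_eq_true, Bool.or_eq_true, decide_eq_true_eq]
  tauto

theorem GPW : GPW_stmt := by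
  refine ⟨?_, ?_, ?_, ?_, ?_, ?_, ?_⟩
  · intro j hj r
    obtain ⟨n, rfl⟩ : ∃ n, j = n + 1 := ⟨j - 1, by omega⟩
    have h1 : 2 ^ (n + 1) = 2 * 2 ^ n := by rw [pow_succ]; ring
    have h2 : 2 ^ (n + 1) / 2 = 2 ^ n := by omega
    rw [GPW_g, h2, GPW_A]
    have h0 : 0 < 2 ^ n := by positivity
    omega
  · intro j hj r
    obtain ⟨n, rfl⟩ : ∃ n, j = n + 1 := ⟨j - 1, by omega⟩
    have h1 : 2 ^ (n + 1) = 2 * 2 ^ n := by rw [pow_succ]; ring
    have h0 : 0 < 2 ^ n := by positivity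
    have h2 : (2 ^ (n + 1) - 1) / 2 = 2 ^ n - 1 := by omega
    rw [GPW_g, h2, GPW_B]
    omega
  · intro j hj i
    obtain ⟨n, rfl⟩ : ∃ n, j = n + 1 := ⟨j - 1, by omega⟩
    have h1 : 2 ^ (n + 1) = 2 * 2 ^ n := by rw [pow_succ]; ring
    have h0 : 0 < 2 ^ n := by positivity
    have h2 : (2 ^ (n + 1) - 2) / 2 = 2 ^ n - 1 := by omega
    have h3 : 4 * i / 4 = i := by omega
    rw [GPW_g, h2, h3, GPW_B]
    omega
  · intro d r h
    rw [GPW_g] at h
    obtain ⟨h1, h2, h3⟩ := h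
    have h4 : r / 4 ≤ d / 2 := by
      by_contra hc
      rw [Nat.choose_eq_zero_of_lt (by omega)] at h3
      omega
    omega
  · intro r
    rw [GPW_g]
    constructor
    · rintro ⟨h1, h2, h3⟩
      have h4 : r / 4 ≤ 0 := by
        by_contra hc
        rw [Nat.choose_eq_zero_of_lt (by omega)] at h3
        omega
      omega
    · rintro rfl
      exact ⟨by norm_num, Or.inl rfl, by norm_num⟩
  · intro d
    rw [GPW_g]
    exact ⟨by norm_num, Or.inl rfl, by norm_num⟩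
  · intro d hd
    refine ⟨?_, ?_⟩
    · rw [GPW_g]
      exact ⟨by norm_num, Or.inr hd, by norm_num⟩
    · rw [GPW_g]
      exact ⟨by norm_num, Or.inr hd, by norm_num⟩

end Pool.Agent.U4
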